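import Mathlib

/-!
# The weighted sum inequality, in terms of the multisets of lengths
-/

namespace Pool.Agent.Lib.MP_32269d_co

open Finset

/-- The data of the first `T` steps of a strategy, in terms of lengths: `L s` is the multiset of
lengths at time `s`, `M s` its maximum; at time `s < T` an interval of length `b s + c s` is cut
into pieces of lengths `b s ≥ c s`; all ratios at time `s` are at most `D s < 2`. -/
structure Data (T : ℕ) (L R : ℕ → Multiset ℝ) (M b c D : ℕ → ℝ) : Prop where
  L1 : L 1 = {1}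
  Mmem : ∀ s, 1 ≤ s → s ≤ T → M s ∈ L s
  Mmax : ∀ s, 1 ≤ s → s ≤ T → ∀ x ∈ L s, x ≤ M s
  step1 : ∀ s, 1 ≤ s → s < T → L s = (b s + c s) ::ₘ R s
  step2 : ∀ s, 1 ≤ s → s < T → L (s + 1) = b s ::ₘ c s ::ₘ R s
  cpos : ∀ s, 1 ≤ s → s < T → 0 < c s
  cb : ∀ s, 1 ≤ s → s < T → c s ≤ b s
  ratio : ∀ s, 1 ≤ s → s ≤ T → ∀ x ∈ L s, ∀ y ∈ L s, x ≤ D s * y
  D2 : ∀ s, 1 ≤ s → s ≤ T → D s < 2

/-- The weights. -/
noncomputable def lam (M b c : ℕ → ℝ) (s : ℕ) : ℝ :=
  1 + (1 / 2) * ∑ t : Fin s,
    if 1 ≤ (t : ℕ) ∧ c t < M s ∧ M s ≤ b t then lam M b c t else 0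
termination_by s
decreasing_by exact t.2

theorem lam_eq (M b c : ℕ → ℝ) (s : ℕ) : lam M b c s =
    1 + (1 / 2) * ∑ t ∈ (Ico 1 s).filter (fun t => c t < M s ∧ M s ≤ b t), lam M b c t := by
  rw [lam]
  congr 2
  rw [Fin.sum_univ_eq_sum_range
    (fun t : ℕ => if 1 ≤ t ∧ c t < M s ∧ M s ≤ b t then lam M b c t else 0) s,
    ← Finset.sum_filter]
  congr 1
  ext t
  simp only [mem_filter, mem_range, mem_Ico]
  tauto

theorem one_le_lam (M b c : ℕ → ℝ) (s : ℕ) : 1 ≤ lam M b c s := by
  induction s using Nat.strong_induction_on with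
  | _ s ih =>
    rw [lam_eq]
    have : 0 ≤ ∑ t ∈ (Ico 1 s).filter (fun t => c t < M s ∧ M s ≤ b t), lam M b c t := by
      apply Finset.sum_nonneg
      intro t ht
      rw [mem_filter, mem_Ico] at ht
      linarith [ih t ht.1.2]
    linarith

namespace Data

variable {T : ℕ} {L R : ℕ → Multiset ℝ} {M b c D : ℕ → ℝ}

theorem M_one (h : Data T L R M b c D) (hT : 1 ≤ T) : M 1 = 1 := by
  have := h.Mmem 1 le_rfl hT
  rw [h.L1, Multiset.mem_singleton] at this
  exact this

/-- The interval which is cut is the longest one, and all others are strictly shorter. -/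
theorem R_lt (h : Data T L R M b c D) {s : ℕ} (h1 : 1 ≤ s) (h2 : s < T) {x : ℝ} (hx : x ∈ R s) :
    x < b s + c s := by
  have e1 : x ∈ L (s + 1) := by
    rw [h.step2 s h1 h2]; simp [hx]
  have e2 : c s ∈ L (s + 1) := by
    rw [h.step2 s h1 h2]; simp
  have e3 := h.ratio (s + 1) (by omega) h2 x e1 (c s) e2
  have e4 := h.D2 (s + 1) (by omega) h2
  have e5 := h.cpos s h1 h2
  have e6 := h.cb s h1 h2
  nlinarith

theorem M_eq (h : Data T L R M b c D) {s : ℕ} (h1 : 1 ≤ s) (h2 : s < T) : M s = b s + c s := by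
  apply le_antisymm
  · have := h.Mmem s h1 h2.le
    rw [h.step1 s h1 h2, Multiset.mem_cons] at this
    rcases this with h3 | h3
    · exact h3.le
    · exact (h.R_lt h1 h2 h3).le
  · apply h.Mmax s h1 h2.le
    rw [h.step1 s h1 h2]
    exact Multiset.mem_cons_self _ _

theorem b_mem (h : Data T L R M b c D) {s : ℕ} (h1 : 1 ≤ s) (h2 : s < T) : b s ∈ L (s + 1) := by
  rw [h.step2 s h1 h2]; simp

theorem c_mem (h : Data T L R M b c D) {s : ℕ} (h1 : 1 ≤ s) (h2 : s < T) : c s ∈ L (s + 1) := by
  rw [h.step2 s h1 h2]; simp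

theorem R_mem (h : Data T L R M b c D) {s : ℕ} (h1 : 1 ≤ s) (h2 : s < T) {x : ℝ} (hx : x ∈ R s) :
    x ∈ L (s + 1) := by
  rw [h.step2 s h1 h2]; simp [hx]

/-- `M (s+1) < 2 c s`. -/
theorem M_succ_lt (h : Data T L R M b c D) {s : ℕ} (h1 : 1 ≤ s) (h2 : s < T) :
    M (s + 1) < 2 * c s := by
  have e3 := h.ratio (s + 1) (by omega) h2 _ (h.Mmem (s + 1) (by omega) h2) (c s) (h.c_mem h1 h2)
  have e4 := h.D2 (s + 1) (by omega) h2
  have e5 := h.cpos s h1 h2
  nlinarith

theorem M_lt_succ (h : Data T L R M b c D) {s : ℕ} (h1 : 1 ≤ s) (h2 : s < T) :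
    M (s + 1) < M s := by
  have := h.M_succ_lt h1 h2
  have := h.M_eq h1 h2
  have := h.cb s h1 h2
  linarith

theorem M_anti (h : Data T L R M b c D) {s t : ℕ} (h1 : 1 ≤ s) (h2 : s < t) (h3 : t ≤ T) :
    M t < M s := by
  induction t, h2 using Nat.le_induction with
  | base => exact h.M_lt_succ h1 h3
  | succ t ht ih =>
    exact (h.M_lt_succ (by omega) (by omega)).trans (ih (by omega))

theorem M_pos (h : Data T L R M b c D) {s : ℕ} (h1 : 1 ≤ s) (h2 : s ≤ T) : 0 < M s := by
  rcases Nat.eq_or_lt_of_le h2 with h3 | h3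
  · rcases Nat.eq_or_lt_of_le h1 with h4 | h4
    · rw [← h4, h.M_one (by omega)]; exact one_pos
    · obtain ⟨r, rfl⟩ : ∃ r, s = r + 1 := ⟨s - 1, by omega⟩
      exact (h.cpos r (by omega) (by omega)).trans_le
        (h.Mmax (r + 1) h1 h2 _ (h.c_mem (by omega) (by omega)))
  · have := h.M_eq h1 h3
    have := h.cpos s h1 h3
    have := h.cb s h1 h3
    linarith

theorem c_lt_succ (h : Data T L R M b c D) {s : ℕ} (h1 : 1 ≤ s) (h2 : s + 1 < T) :
    c (s + 1) < c s := by
  have e1 := h.M_succ_lt h1 (by omega)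
  have e2 := h.M_eq (s := s + 1) (by omega) h2
  have e3 := h.cb (s + 1) (by omega) h2
  linarith

theorem c_anti (h : Data T L R M b c D) {s t : ℕ} (h1 : 1 ≤ s) (h2 : s ≤ t) (h3 : t < T) :
    c t ≤ c s := by
  induction t, h2 using Nat.le_induction with
  | base => exact le_rfl
  | succ t ht ih =>
    exact (h.c_lt_succ (by omega) h3).le.trans (ih (by omega))

/-- A value present at time `t` is present at time `s ≥ t`, or was the maximum at a time
in between. -/
theorem persist (h : Data T L R M b c D) {t s : ℕ} (h1 : 1 ≤ t) (h2 : t ≤ s) (h3 : s ≤ T) {x : ℝ}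
    (hx : x ∈ L t) : x ∈ L s ∨ ∃ r, t ≤ r ∧ r < s ∧ x = M r := by
  induction s, h2 using Nat.le_induction with
  | base => exact Or.inl hx
  | succ s hs ih =>
    rcases ih (by omega) with h4 | ⟨r, h4, h5, h6⟩
    · rw [h.step1 s (by omega) (by omega), Multiset.mem_cons] at h4
      rcases h4 with h4 | h4
      · right
        exact ⟨s, hs, by omega, by rw [h.M_eq (by omega) (by omega)]; exact h4⟩
      · left
        exact h.R_mem (by omega) (by omega) h4
    · right
      exact ⟨r, h4, by omega, h6⟩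

/-- If a value present at time `t` is smaller than the maximum at time `s ≥ t`, then it is at most
the maximum at time `s + 1`. -/
theorem persist_le (h : Data T L R M b c D) {t s : ℕ} (h1 : 1 ≤ t) (h2 : t ≤ s) (h3 : s < T)
    {x : ℝ} (hx : x ∈ L t) (hlt : x < M s) : x ≤ M (s + 1) := by
  rcases h.persist h1 h2 h3.le hx with h4 | ⟨r, h4, h5, h6⟩
  · rw [h.step1 s (by omega) h3, Multiset.mem_cons] at h4
    rcases h4 with h4 | h4
    · rw [← h.M_eq (by omega) h3] at h4
      exact absurd h4 hlt.ne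
    · exact h.Mmax (s + 1) (by omega) h3 x (h.R_mem (by omega) h3 h4)
  · have := h.M_anti (by omega) h5 h3.le
    linarith

/-- Counting: the pieces made before time `s` of length at least `M s` are `s - 1` in number. -/
theorem count_aux (h : Data T L R M b c D) (x : ℝ) {s : ℕ} (h1 : 1 ≤ s) (h2 : s ≤ T) :
    (Multiset.countP (x ≤ ·) (L s)) + ((Ico 1 s).filter (fun t => x ≤ M t)).card =
      (if x ≤ 1 then 1 else 0) + ((Ico 1 s).filter (fun t => x ≤ b t)).card +
        ((Ico 1 s).filter (fun t => x ≤ c t)).card := by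
  induction s, h1 using Nat.le_induction with
  | base =>
    rw [h.L1]
    simp [Multiset.countP_eq_card_filter, Multiset.filter_singleton]
    split_ifs <;> simp
  | succ s hs ih =>
    have ih := ih (by omega)
    have e1 := h.step1 s hs (by omega)
    have e2 := h.step2 s hs (by omega)
    have e3 := h.M_eq hs (show s < T by omega)
    rw [e1, ← e3] at ih
    rw [e2]
    rw [Nat.Ico_succ_right_eq_insert_Ico hs, Finset.filter_insert, Finset.filter_insert,
      Finset.filter_insert]
    rw [Multiset.countP_cons] at ih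
    rw [Multiset.countP_cons, Multiset.countP_cons]
    have n1 : s ∉ (Ico 1 s).filter (fun t => x ≤ M t) := by simp
    have n2 : s ∉ (Ico 1 s).filter (fun t => x ≤ b t) := by simp
    have n3 : s ∉ (Ico 1 s).filter (fun t => x ≤ c t) := by simp
    split_ifs at ih ⊢ <;>
      (try simp only [Finset.card_insert_of_notMem, n1, n2, n3, not_false_eq_true]) <;> omega

theorem count_self (h : Data T L R M b c D) {s : ℕ} (h1 : 1 ≤ s) (h2 : s < T) :
    Multiset.countP (M s ≤ ·) (L s) = 1 := by
  rw [h.step1 s h1 h2, Multiset.countP_cons, h.M_eq h1 h2, if_pos le_rfl]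
  rw [Multiset.countP_eq_zero.2]
  intro x hx
  exact not_le.2 (h.R_lt h1 h2 hx)

theorem count (h : Data T L R M b c D) {s : ℕ} (h1 : 1 ≤ s) (h2 : s < T) :
    ((Ico 1 s).filter (fun t => M s ≤ b t)).card +
      ((Ico 1 s).filter (fun t => M s ≤ c t)).card = s - 1 := by
  have e1 := h.count_aux (M s) h1 h2.le
  rw [h.count_self h1 h2] at e1
  have e2 : (Ico 1 s).filter (fun t => M s ≤ M t) = Ico 1 s := by
    apply Finset.filter_true_of_mem
    intro t ht
    rw [mem_Ico] at ht
    exact (h.M_anti ht.1 ht.2 h2.le).le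
  have e3 : M s ≤ 1 := by
    rw [← h.M_one (by omega)]
    rcases Nat.eq_or_lt_of_le h1 with h3 | h3
    · rw [← h3]
    · exact (h.M_anti le_rfl h3 h2.le).le
  rw [e2, Nat.card_Ico, if_pos e3] at e1
  omega

/-- The two pieces are never equal if one of them is cut in time. -/
theorem c_lt_of (h : Data T L R M b c D) {t s : ℕ} (h1 : 1 ≤ t) (h2 : t < s) (h3 : s < T)
    (hb : b t = M s) : c t < M s := by
  have hcb := h.cb t h1 (by omega)
  rcases lt_or_eq_of_le hcb with h4 | h4
  · rw [← hb]; exact h4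
  · exfalso
    have key : ∀ r, t + 1 ≤ r → r ≤ s → 2 ≤ Multiset.count (b t) (L r) := by
      intro r hr
      induction r, hr using Nat.le_induction with
      | base =>
        intro _
        rw [h.step2 t h1 (by omega), h4]
        simp
      | succ r hr ih =>
        intro h5
        have h8 := ih (by omega)
        have h9 : b t ≠ M r := by
          rw [hb]; exact (h.M_anti (by omega) (by omega) h3.le).ne
        rw [h.step1 r (by omega) (by omega), ← h.M_eq (by omega) (by omega),
          Multiset.count_cons_of_ne h9] at h8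
        rw [h.step2 r (by omega) (by omega), Multiset.count_cons, Multiset.count_cons]
        omega
    have h5 := key s (by omega) le_rfl
    rw [hb, h.step1 s (by omega) h3, ← h.M_eq (by omega) h3, Multiset.count_cons_self,
      Multiset.count_eq_zero_of_notMem] at h5
    · omega
    · intro hmem
      have := h.R_lt (by omega) h3 hmem
      rw [← h.M_eq (by omega) h3] at this
      exact lt_irrefl _ this

/-- If `M S ≤ b t` then `b t` is cut at some time in `(t, S]`. -/
theorem exists_cut (h : Data T L R M b c D) {t S : ℕ} (h1 : 1 ≤ t) (h2 : t < S) (h3 : S < T)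
    (hb : M S ≤ b t) : ∃ s, t < s ∧ s ≤ S ∧ b t = M s := by
  rcases h.persist (s := S) (by omega) h2 h3.le (h.b_mem h1 (by omega)) with h4 | ⟨r, h4, h5, h6⟩
  · exact ⟨S, h2, le_rfl, le_antisymm (h.Mmax S (by omega) h3.le _ h4) hb⟩
  · exact ⟨r, by omega, h5.le, h6⟩

/-- A subset of `{1, ..., n-1}` closed downwards is an initial segment. -/
theorem initial_segment {n : ℕ} {A : Finset ℕ} (hA : A ⊆ Ico 1 n)
    (hdown : ∀ t ∈ A, ∀ u, 1 ≤ u → u ≤ t → u ∈ A) : A = Ico 1 (A.card + 1) := by
  rcases A.eq_empty_or_nonempty with rfl | hne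
  · simp
  · set m := A.max' hne with hm
    have hmA : m ∈ A := A.max'_mem hne
    have h1 : 1 ≤ m := (mem_Ico.1 (hA hmA)).1
    have h2 : A = Ico 1 (m + 1) := by
      ext u
      rw [mem_Ico]
      constructor
      · intro hu
        have := A.le_max' u hu
        have := (mem_Ico.1 (hA hu)).1
        omega
      · rintro ⟨h3, h4⟩
        exact hdown m hmA u h3 (by omega)
    rw [h2, Nat.card_Ico]
    congr 1

/-- The weights are at least `4/3` on average. -/
theorem sum_lam (h : Data T L R M b c D) {S : ℕ} (hS : S < T) :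
    (4 / 3 : ℝ) * S - 2 / 3 ≤ ∑ s ∈ Ico 1 (S + 1), lam M b c s := by
  induction S using Nat.strong_induction_on with
  | _ S ih =>
  rcases Nat.eq_zero_or_pos S with hS0 | hS0
  · subst hS0; norm_num
  -- the sets `B` and `C`
  set B := (Ico 1 S).filter (fun t => M S ≤ b t) with hB
  set C := (Ico 1 S).filter (fun t => M S ≤ c t) with hC
  have hcount : B.card + C.card = S - 1 := h.count hS0 hS
  have hCB : C ⊆ B := by
    intro t ht
    rw [hC, mem_filter, mem_Ico] at ht
    rw [hB, mem_filter, mem_Ico]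
    exact ⟨ht.1, ht.2.trans (h.cb t ht.1.1 (by omega))⟩
  have hCseg : C = Ico 1 (C.card + 1) := by
    apply initial_segment (n := S) (Finset.filter_subset _ _)
    intro t ht u hu1 hu2
    rw [mem_filter, mem_Ico] at ht ⊢
    exact ⟨⟨hu1, by omega⟩, ht.2.trans (h.c_anti hu1 hu2 (by omega))⟩
  -- first: the double sum
  have e1 : ∑ s ∈ Ico 1 (S + 1), lam M b c s = S + (1 / 2) * ∑ s ∈ Ico 1 (S + 1),
      ∑ t ∈ (Ico 1 s).filter (fun t => c t < M s ∧ M s ≤ b t), lam M b c t := by
    rw [Finset.mul_sum]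
    have : (S : ℝ) = ∑ s ∈ Ico 1 (S + 1), (1 : ℝ) := by simp
    rw [this, ← Finset.sum_add_distrib]
    apply Finset.sum_congr rfl
    intro s _
    exact lam_eq M b c s
  have e2 : ∑ t ∈ B, lam M b c t ≤ ∑ s ∈ Ico 1 (S + 1),
      ∑ t ∈ (Ico 1 s).filter (fun t => c t < M s ∧ M s ≤ b t), lam M b c t := by
    have e3 : ∀ s ∈ Ico 1 (S + 1),
        ∑ t ∈ (Ico 1 s).filter (fun t => c t < M s ∧ M s ≤ b t), lam M b c t =
        ∑ t ∈ Ico 1 S, if t < s ∧ c t < M s ∧ M s ≤ b t then lam M b c t else 0 := by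
      intro s hs
      rw [mem_Ico] at hs
      rw [← Finset.sum_filter]
      congr 1
      ext t
      simp only [mem_filter, mem_Ico]
      constructor
      · rintro ⟨⟨h1, h2⟩, h3⟩
        exact ⟨⟨h1, by omega⟩, h2, h3⟩
      · rintro ⟨⟨h1, h2⟩, h3, h4⟩
        exact ⟨⟨h1, h3⟩, h4⟩
    rw [Finset.sum_congr rfl e3, Finset.sum_comm, hB, Finset.sum_filter]
    apply Finset.sum_le_sum
    intro t ht
    rw [mem_Ico] at ht
    have hl := one_le_lam M b c t
    have hnn : ∀ s ∈ Ico 1 (S + 1),
        0 ≤ if t < s ∧ c t < M s ∧ M s ≤ b t then lam M b c t else 0 := by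
      intro s _
      split_ifs
      · linarith
      · exact le_rfl
    split_ifs with h5
    · obtain ⟨s, h6, h7, h8⟩ := h.exists_cut ht.1 ht.2 hS h5
      have h9 := h.c_lt_of ht.1 h6 (by omega) h8
      have h10 := Finset.single_le_sum hnn (mem_Ico.2 ⟨by omega, by omega⟩ : s ∈ Ico 1 (S + 1))
      rw [if_pos ⟨h6, h9, h8.ge⟩] at h10
      exact h10
    · exact Finset.sum_nonneg hnn
  have e4 : ∑ t ∈ C, lam M b c t + ((B.card : ℝ) - C.card) ≤ ∑ t ∈ B, lam M b c t := by
    rw [← Finset.sum_sdiff hCB, add_comm]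
    apply add_le_add_left
    have : (B \ C).card = B.card - C.card := Finset.card_sdiff_of_subset hCB
    have h6 : ((B \ C).card : ℝ) = (B.card : ℝ) - C.card := by
      rw [this, Nat.cast_sub (Finset.card_le_card hCB)]
    rw [← h6]
    calc ((B \ C).card : ℝ) = ∑ t ∈ B \ C, (1 : ℝ) := by simp
      _ ≤ ∑ t ∈ B \ C, lam M b c t := Finset.sum_le_sum fun t _ => one_le_lam M b c t
  have hCS : C.card < S := by omega
  have e5 := ih C.card hCS (by omega)
  rw [← hCseg] at e5
  have h7 : (B.card : ℝ) + C.card = S - 1 := by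
    have : ((B.card + C.card : ℕ) : ℝ) = ((S - 1 : ℕ) : ℝ) := by rw [hcount]
    rw [Nat.cast_sub hS0] at this
    push_cast at this
    exact this
  have h8 : (C.card : ℝ) ≤ B.card := by exact_mod_cast Finset.card_le_card hCB
  rw [e1]
  linarith

/-- One step: the logarithmic gap. -/
theorem gap (h : Data T L R M b c D) {s : ℕ} (h1 : 1 ≤ s) (h2 : s < T) :
    (2 - D (s + 1)) / 2 + (Real.log (b s) - Real.log (c s)) / 2 ≤
      Real.log (M s) - Real.log (M (s + 1)) := by
  have hc := h.cpos s h1 h2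
  have hcb := h.cb s h1 h2
  have hb : 0 < b s := hc.trans_le hcb
  have hM1 : 0 < M (s + 1) := h.M_pos (by omega) h2
  have hMeq := h.M_eq h1 h2
  have hr := h.ratio (s + 1) (by omega) h2 _ (h.Mmem (s + 1) (by omega) h2) (c s) (h.c_mem h1 h2)
  have hD : 0 < D (s + 1) := by
    by_contra hcon
    push Not at hcon
    have : D (s + 1) * c s ≤ 0 := mul_nonpos_of_nonpos_of_nonneg hcon hc.le
    linarith
  -- `log (b + c) ≥ log 2 + (log b + log c)/2`
  have e1 : Real.log 2 + (Real.log (b s) + Real.log (c s)) / 2 ≤ Real.log (M s) := by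
    have e2 : 2 ^ 2 * (b s * c s) ≤ M s ^ 2 := by
      rw [hMeq]; nlinarith [sq_nonneg (b s - c s)]
    have e3 := Real.log_le_log (by positivity) e2
    rw [Real.log_mul (by positivity) (by positivity), Real.log_mul hb.ne' hc.ne', Real.log_pow,
      Real.log_pow] at e3
    push_cast at e3
    linarith
  have e4 : Real.log (M (s + 1)) ≤ Real.log (D (s + 1)) + Real.log (c s) := by
    rw [← Real.log_mul hD.ne' hc.ne']
    exact Real.log_le_log hM1 hr
  have e5 : Real.log (D (s + 1)) ≤ Real.log 2 - (2 - D (s + 1)) / 2 := by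
    have e6 := Real.log_le_sub_one_of_pos (show 0 < D (s + 1) / 2 by positivity)
    rw [Real.log_div hD.ne' (by norm_num)] at e6
    linarith
  linarith

/-- The potential argument. -/
theorem main_ineq (h : Data T L R M b c D) {s : ℕ} (h1 : 1 ≤ s) (h2 : s ≤ T) :
    (1 / 2) * ∑ t ∈ Ico 1 s, lam M b c t * (2 - D (t + 1)) +
      ∑ t ∈ Ico 1 s, (lam M b c t / 2) *
        max 0 (-Real.log (c t) - max (-Real.log (b t)) (-Real.log (M s))) ≤
      -Real.log (M s) := by
  induction s, h1 using Nat.le_induction with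
  | base =>
    rw [h.M_one h2]
    simp
  | succ s hs ih =>
    have ih := ih (by omega)
    have hgap := h.gap hs h2
    have hMlt := h.M_lt_succ hs h2
    have hM0 : 0 < M (s + 1) := h.M_pos (by omega) h2
    have hlog : -Real.log (M s) < -Real.log (M (s + 1)) := by
      have := Real.log_lt_log hM0 hMlt
      linarith
    rw [Finset.sum_Ico_succ_top hs, Finset.sum_Ico_succ_top hs]
    -- the new term
    have e1 : max 0 (-Real.log (c s) - max (-Real.log (b s)) (-Real.log (M (s + 1)))) =
        Real.log (b s) - Real.log (c s) := by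
      have hb : b s ≤ M (s + 1) := h.Mmax (s + 1) (by omega) h2 _ (h.b_mem hs h2)
      have hc := h.cpos s hs h2
      have hcb := h.cb s hs h2
      have a1 : Real.log (b s) ≤ Real.log (M (s + 1)) := Real.log_le_log (by linarith) hb
      have a2 : Real.log (c s) ≤ Real.log (b s) := Real.log_le_log hc hcb
      rw [max_eq_left (by linarith : -Real.log (M (s + 1)) ≤ -Real.log (b s)),
        max_eq_right (by linarith)]
      ring
    -- the old terms
    have e2 : ∑ t ∈ Ico 1 s, (lam M b c t / 2) *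
        max 0 (-Real.log (c t) - max (-Real.log (b t)) (-Real.log (M (s + 1)))) ≤
        ∑ t ∈ Ico 1 s, (lam M b c t / 2) *
          max 0 (-Real.log (c t) - max (-Real.log (b t)) (-Real.log (M s))) -
        (Real.log (M s) - Real.log (M (s + 1))) * (lam M b c s - 1) := by
      have e3 : lam M b c s - 1 = ∑ t ∈ Ico 1 s,
          if c t < M s ∧ M s ≤ b t then lam M b c t / 2 else 0 := by
        rw [lam_eq, Finset.sum_filter, Finset.mul_sum, add_sub_cancel_left]
        apply Finset.sum_congr rfl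
        intro t _
        split_ifs <;> ring
      rw [e3, Finset.mul_sum, ← Finset.sum_sub_distrib]
      apply Finset.sum_le_sum
      intro t ht
      rw [mem_Ico] at ht
      have hl := one_le_lam M b c t
      split_ifs with h5
      · obtain ⟨h6, h7⟩ := h5
        have hct := h.cpos t ht.1 (by omega)
        have h8 : c t ≤ M (s + 1) :=
          h.persist_le (by omega) (by omega : t + 1 ≤ s) h2 (h.c_mem ht.1 (by omega)) h6
        have a1 : Real.log (c t) ≤ Real.log (M (s + 1)) := Real.log_le_log hct h8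
        have a2 : Real.log (M s) ≤ Real.log (b t) := Real.log_le_log (h.M_pos hs (by omega)) h7
        rw [max_eq_right (by linarith : -Real.log (b t) ≤ -Real.log (M (s + 1))),
          max_eq_right (by linarith : -Real.log (b t) ≤ -Real.log (M s)),
          max_eq_right (by linarith), max_eq_right (by linarith)]
        apply le_of_eq
        ring
      · rw [mul_zero, sub_zero]
        apply mul_le_mul_of_nonneg_left _ (by linarith)
        apply max_le_max le_rfl
        have : max (-Real.log (b t)) (-Real.log (M s)) ≤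
            max (-Real.log (b t)) (-Real.log (M (s + 1))) := max_le_max le_rfl hlog.le
        linarith
    rw [e1]
    have hl := one_le_lam M b c s
    have e4 : lam M b c s * ((2 - D (s + 1)) / 2 + (Real.log (b s) - Real.log (c s)) / 2) ≤
        lam M b c s * (Real.log (M s) - Real.log (M (s + 1))) :=
      mul_le_mul_of_nonneg_left hgap (by linarith)
    linarith

/-- The weighted sum inequality. -/
theorem weighted (h : Data T L R M b c D) {s : ℕ} (h1 : 1 ≤ s) (h2 : s ≤ T) :
    (1 / 2) * ∑ t ∈ Ico 1 s, lam M b c t * (2 - D (t + 1)) ≤ -Real.log (M s) := by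
  have h3 := h.main_ineq h1 h2
  have h4 : 0 ≤ ∑ t ∈ Ico 1 s, (lam M b c t / 2) *
        max 0 (-Real.log (c t) - max (-Real.log (b t)) (-Real.log (M s))) := by
    apply Finset.sum_nonneg
    intro t _
    have := one_le_lam M b c t
    exact mul_nonneg (by linarith) (le_max_left _ _)
  linarith

end Data

/-- Abel summation: weights whose partial sums are at least `a n - e` against a nonincreasing
sequence. -/
theorem abel {w u : ℕ → ℝ} {a e : ℝ} {n : ℕ} (hn : 1 ≤ n)
    (hw : ∀ m, 1 ≤ m → m ≤ n → a * m - e ≤ ∑ t ∈ Ico 1 (m + 1), w t)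
    (hu : ∀ t, 1 ≤ t → t < n → u (t + 1) ≤ u t) :
    a * ∑ t ∈ Ico 1 (n + 1), u t - e * u 1 +
      (∑ t ∈ Ico 1 (n + 1), w t - (a * n - e)) * u n ≤ ∑ t ∈ Ico 1 (n + 1), w t * u t := by
  induction n, hn using Nat.le_induction with
  | base =>
    simp only [Nat.Ico_succ_singleton, Finset.sum_singleton, Nat.cast_one]
    apply le_of_eq
    ring
  | succ n hn ih =>
    have ih := ih (fun m h1 h2 => hw m h1 (by omega)) (fun t h1 h2 => hu t h1 (by omega))
    have h1 := hw n hn (by omega)
    have h2 := hu n hn (by omega)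
    rw [Finset.sum_Ico_succ_top (by omega : 1 ≤ n + 1) u,
      Finset.sum_Ico_succ_top (by omega : 1 ≤ n + 1) w,
      Finset.sum_Ico_succ_top (by omega : 1 ≤ n + 1) (fun t => w t * u t)]
    push_cast
    have h3 : (∑ t ∈ Ico 1 (n + 1), w t - (a * n - e)) * u (n + 1) ≤
        (∑ t ∈ Ico 1 (n + 1), w t - (a * n - e)) * u n :=
      mul_le_mul_of_nonneg_left h2 (by linarith)
    nlinarith

end Pool.Agent.Lib.MP_32269d_co
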