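import Mathlib

/-!
# Infinite interval-splitting strategies

A partition of `[0,1]` into finitely many intervals is given by the finite set of its intervals,
each interval being the pair of its end points.
-/

namespace Pool.Agent.Lib.MP_32269d_co

/-- Length of the interval with end points `I.1` and `I.2`. -/
def len (I : ℝ × ℝ) : ℝ := I.2 - I.1

/-- An infinite-length strategy: `part n` (for `n ≥ 1`) is the partition of `[0,1]` at time `n`,
written as the finite set of its intervals. It starts with the single interval `[0,1]`, and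
`part (n+1)` arises from `part n` by cutting one of the intervals, `[a,b]`, at an interior
point `x` into `[a,x]` and `[x,b]`. -/
structure Strategy where
  /-- the set of intervals at time `n` -/
  part : ℕ → Finset (ℝ × ℝ)
  /-- at time one there is only the interval `[0,1]` -/
  start : part 1 = {((0 : ℝ), (1 : ℝ))}
  /-- each step cuts one interval into two -/
  step : ∀ n, 1 ≤ n → ∃ a b x : ℝ, (a, b) ∈ part n ∧ a < x ∧ x < b ∧
    part (n + 1) = insert (a, x) (insert (x, b) ((part n).erase (a, b)))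

/-- The discrepancy of a partition: the maximum of the ratio of the lengths of two of its
intervals. -/
noncomputable def disc (P : Finset (ℝ × ℝ)) : ℝ :=
  sSup {r : ℝ | ∃ I ∈ P, ∃ J ∈ P, r = len I / len J}

/-- `disc_n(S)`: the maximum of the discrepancies of the partitions at times `1, ..., n`. -/
noncomputable def discUpTo (S : Strategy) (n : ℕ) : ℝ :=
  sSup {r : ℝ | ∃ t : ℕ, 1 ≤ t ∧ t ≤ n ∧ r = disc (S.part t)}

/-! ### Basic facts -/

theorem disc_set_finite (P : Finset (ℝ × ℝ)) :
    {r : ℝ | ∃ I ∈ P, ∃ J ∈ P, r = len I / len J}.Finite := by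
  refine (Finset.finite_toSet
    ((P ×ˢ P).image (fun p : (ℝ × ℝ) × (ℝ × ℝ) => len p.1 / len p.2))).subset ?_
  rintro r ⟨I, hI, J, hJ, rfl⟩
  rw [Finset.mem_coe, Finset.mem_image]
  exact ⟨(I, J), Finset.mem_product.2 ⟨hI, hJ⟩, rfl⟩

theorem le_disc {P : Finset (ℝ × ℝ)} {I J : ℝ × ℝ} (hI : I ∈ P) (hJ : J ∈ P) :
    len I / len J ≤ disc P :=
  le_csSup (disc_set_finite P).bddAbove ⟨I, hI, J, hJ, rfl⟩

theorem disc_le {P : Finset (ℝ × ℝ)} (hP : P.Nonempty) {B : ℝ}
    (h : ∀ I ∈ P, ∀ J ∈ P, len I / len J ≤ B) : disc P ≤ B := by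
  obtain ⟨I, hI⟩ := hP
  refine csSup_le ⟨_, I, hI, I, hI, rfl⟩ ?_
  rintro r ⟨I, hI, J, hJ, rfl⟩
  exact h I hI J hJ

theorem discUpTo_set_finite (S : Strategy) (n : ℕ) :
    {r : ℝ | ∃ t : ℕ, 1 ≤ t ∧ t ≤ n ∧ r = disc (S.part t)}.Finite := by
  refine (Finset.finite_toSet
    ((Finset.Icc 1 n).image (fun t => disc (S.part t)))).subset ?_
  rintro r ⟨t, h1, h2, rfl⟩
  rw [Finset.mem_coe, Finset.mem_image]
  exact ⟨t, Finset.mem_Icc.2 ⟨h1, h2⟩, rfl⟩

theorem disc_le_discUpTo (S : Strategy) {t n : ℕ} (h1 : 1 ≤ t) (h2 : t ≤ n) :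
    disc (S.part t) ≤ discUpTo S n :=
  le_csSup (discUpTo_set_finite S n).bddAbove ⟨t, h1, h2, rfl⟩

theorem discUpTo_le (S : Strategy) {n : ℕ} (hn : 1 ≤ n) {B : ℝ}
    (h : ∀ t, 1 ≤ t → t ≤ n → disc (S.part t) ≤ B) : discUpTo S n ≤ B := by
  refine csSup_le ⟨_, 1, le_rfl, hn, rfl⟩ ?_
  rintro r ⟨t, h1, h2, rfl⟩
  exact h t h1 h2

theorem discUpTo_mono (S : Strategy) {m n : ℕ} (hm : 1 ≤ m) (h : m ≤ n) :
    discUpTo S m ≤ discUpTo S n :=
  discUpTo_le S hm fun _ h1 h2 => disc_le_discUpTo S h1 (h2.trans h)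

/-- The intervals of a partition have positive length and do not overlap. -/
def Inv (P : Finset (ℝ × ℝ)) : Prop :=
  (∀ I ∈ P, I.1 < I.2) ∧ ∀ I ∈ P, ∀ J ∈ P, I ≠ J → I.2 ≤ J.1 ∨ J.2 ≤ I.1

theorem Inv.cut {P : Finset (ℝ × ℝ)} (hP : Inv P) {a b x : ℝ} (hab : (a, b) ∈ P)
    (hax : a < x) (hxb : x < b) :
    Inv (insert (a, x) (insert (x, b) (P.erase (a, b)))) ∧
      (a, x) ∉ insert (x, b) (P.erase (a, b)) ∧ (x, b) ∉ P.erase (a, b) := by
  obtain ⟨h1, h2⟩ := hP
  have key : ∀ J ∈ P.erase (a, b), J.2 ≤ a ∨ b ≤ J.1 := by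
    intro J hJ
    rw [Finset.mem_erase] at hJ
    rcases h2 J hJ.2 (a, b) hab hJ.1 with h | h
    · exact Or.inl h
    · exact Or.inr h
  refine ⟨⟨?_, ?_⟩, ?_, ?_⟩
  · intro I hI
    rw [Finset.mem_insert, Finset.mem_insert] at hI
    rcases hI with rfl | rfl | hI
    · exact hax
    · exact hxb
    · exact h1 I (Finset.mem_of_mem_erase hI)
  · intro I hI J hJ hIJ
    rw [Finset.mem_insert, Finset.mem_insert] at hI hJ
    rcases hI with rfl | rfl | hI <;> rcases hJ with rfl | rfl | hJ
    · exact absurd rfl hIJ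
    · exact Or.inl le_rfl
    · rcases key J hJ with h | h
      · exact Or.inr h
      · exact Or.inl (hxb.le.trans h)
    · exact Or.inr le_rfl
    · exact absurd rfl hIJ
    · rcases key J hJ with h | h
      · exact Or.inr (h.trans hax.le)
      · exact Or.inl h
    · rcases key I hI with h | h
      · exact Or.inl h
      · exact Or.inr (hxb.le.trans h)
    · rcases key I hI with h | h
      · exact Or.inl (h.trans hax.le)
      · exact Or.inr h
    · exact h2 I (Finset.mem_of_mem_erase hI) J (Finset.mem_of_mem_erase hJ) hIJ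
  · intro h
    rw [Finset.mem_insert] at h
    rcases h with h | h
    · have := congrArg Prod.fst h
      simp only at this
      linarith
    · have h3 := h1 _ (Finset.mem_of_mem_erase h)
      rcases key _ h with h | h
      · simp only at h; linarith
      · simp only at h; linarith
  · intro h
    have h3 := h1 _ (Finset.mem_of_mem_erase h)
    rcases key _ h with h | h
    · simp only at h; linarith
    · simp only at h; linarith

theorem Strategy.inv (S : Strategy) : ∀ n, 1 ≤ n → Inv (S.part n) := by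
  intro n hn
  induction n, hn using Nat.le_induction with
  | base =>
    rw [S.start]
    refine ⟨?_, ?_⟩
    · intro I hI
      rw [Finset.mem_singleton] at hI
      subst hI
      exact zero_lt_one
    · intro I hI J hJ hIJ
      rw [Finset.mem_singleton] at hI hJ
      exact absurd (hI.trans hJ.symm) hIJ
  | succ n hn ih =>
    obtain ⟨a, b, x, hab, hax, hxb, h⟩ := S.step n hn
    rw [h]
    exact (ih.cut hab hax hxb).1

/-- Sanity check: at time `n` there are exactly `n` intervals. -/
theorem Strategy.card_part (S : Strategy) : ∀ n, 1 ≤ n → (S.part n).card = n := by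
  intro n hn
  induction n, hn using Nat.le_induction with
  | base => rw [S.start]; rfl
  | succ n hn ih =>
    obtain ⟨a, b, x, hab, hax, hxb, h⟩ := S.step n hn
    obtain ⟨-, h1, h2⟩ := (S.inv n hn).cut hab hax hxb
    rw [h, Finset.card_insert_of_notMem h1, Finset.card_insert_of_notMem h2,
      Finset.card_erase_of_mem hab, ih]
    omega

/-- Sanity check: the lengths at time `n` sum to one. -/
theorem Strategy.sum_len (S : Strategy) : ∀ n, 1 ≤ n → ∑ I ∈ S.part n, len I = 1 := by
  intro n hn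
  induction n, hn using Nat.le_induction with
  | base => rw [S.start]; simp [len]
  | succ n hn ih =>
    obtain ⟨a, b, x, hab, hax, hxb, h⟩ := S.step n hn
    obtain ⟨-, h1, h2⟩ := (S.inv n hn).cut hab hax hxb
    rw [h, Finset.sum_insert h1, Finset.sum_insert h2]
    rw [← Finset.add_sum_erase _ _ hab] at ih
    simp only [len] at ih ⊢
    linarith

end Pool.Agent.Lib.MP_32269d_co
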